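import Pool.Agent.H743.X17.IsoStm
import Pool.Graph.R_seed8.Y809.BSD14.Tam3
import Pool.Agent.H743.X17.TAMP

/-!
# I17 ITP2: Tamagawa numbers, j = 2, p ∥ N, p ≠ 2, 17 (type I0*)

`X = 4 x + N`, `Y = 4 (2 y + a₁ x)`: `Y² = X (X² - 66 N X + N²)`. The points outside `E⁰` are those with `|X| < 1`, then
`X = N t`, and translation by `T = (N r, 0)` leads to `E⁰` if `|t - r| < 1`.
-/

set_option autoImplicit false
set_option linter.unusedSectionVars false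

open scoped Classical

open WeierstrassCurve

namespace Pool.Agent.H800.I17.ITP2

open Pool.Agent.H743.X17 (IsJ S_ITP2)
open Pool.Agent.H743.X17.QTAMP (nint parity')
open Pool.Agent.Y700 (SingRed E0 tam PtP)
open Pool.Agent.Y809.BSD14 (index_of t_E0 nadd nsub nmul npow nneg ladd lneg lsub lmul lmul' norm_nat_eq_one norm_two_pow
  norm_le_inv norm_M M_lt M_pos M_ne norm2 norm4 norm16 nnat)

section crd

variable {K : Type} [Field K] [DecidableEq K]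

/-- the form of the equation -/
structure IsK (V : WeierstrassCurve.Affine K) (n : K) : Prop where
  a3 : V.a₃ = 0
  a6 : V.a₆ = -n ^ 3
  b2 : V.a₁ ^ 2 + 4 * V.a₂ = -63 * n
  a4 : V.a₄ = -8 * n ^ 2

variable {V : WeierstrassCurve.Affine K} {n : K}

theorem IsK.eqn (h : IsK V n) {x y : K} (hE : V.Equation x y) :
    (4 * (2 * y + V.a₁ * x)) ^ 2 =
      (4 * x + n) * ((4 * x + n) ^ 2 - 66 * n * (4 * x + n) + n ^ 2) := by
  rw [Affine.equation_iff, h.a3, h.a6] at hE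
  linear_combination 64 * hE + 16 * x ^ 2 * h.b2 + 64 * x * h.a4

theorem IsK.eqn' (h : IsK V n) (h2 : (2 : K) ≠ 0) {x y : K}
    (hE : (4 * (2 * y + V.a₁ * x)) ^ 2 =
      (4 * x + n) * ((4 * x + n) ^ 2 - 66 * n * (4 * x + n) + n ^ 2)) : V.Equation x y := by
  rw [Affine.equation_iff, h.a3, h.a6]
  have h64 : (64 : K) ≠ 0 := by
    have : (64 : K) = 2 ^ 6 := by norm_num
    rw [this]
    exact pow_ne_zero _ h2
  apply mul_left_cancel₀ h64
  linear_combination hE - 16 * x ^ 2 * h.b2 - 64 * x * h.a4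

theorem IsK.fx (h : IsK V n) (x y : K) : 16 * (V.a₁ * y - (3 * x ^ 2 + 2 * V.a₂ * x + V.a₄)) =
    2 * V.a₁ * (4 * (2 * y + V.a₁ * x)) - (3 * (4 * x + n) ^ 2 - 132 * n * (4 * x + n) + n ^ 2) := by
  linear_combination (-8 * x) * h.b2 - 16 * h.a4

/-- the point `P` has the coordinates `X = 4 x + n`, `Y = 4 (2 y + a₁ x)` -/
def At (n : K) (P : V.Point) (X Y : K) : Prop :=
  ∃ (x y : K) (h : V.Nonsingular x y), P = Affine.Point.some x y h ∧ X = 4 * x + n ∧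
    Y = 4 * (2 * y + V.a₁ * x)

theorem At.eqn (hV : IsK V n) {P : V.Point} {X Y : K} (h : At n P X Y) :
    Y ^ 2 = X * (X ^ 2 - 66 * n * X + n ^ 2) := by
  obtain ⟨x, y, hn, rfl, rfl, rfl⟩ := h
  exact hV.eqn hn.1

theorem exists_at {P : V.Point} (h : P ≠ 0) : ∃ X Y, At n P X Y := by
  rcases P with _ | ⟨x, y, hn⟩
  · exact absurd rfl h
  · exact ⟨_, _, x, y, hn, rfl, rfl, rfl⟩

theorem At.ext (h2 : (2 : K) ≠ 0) {P P' : V.Point} {X Y : K} (h : At n P X Y) (h' : At n P' X Y) :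
    P = P' := by
  obtain ⟨x, y, hn, rfl, e1, e2⟩ := h
  obtain ⟨x', y', hn', rfl, e1', e2'⟩ := h'
  have hx : x = x' := by
    have h3 : (2 ^ 2 : K) * x = 2 ^ 2 * x' := by linear_combination e1' - e1
    exact mul_left_cancel₀ (pow_ne_zero 2 h2) h3
  have hy : y = y' := by
    have h3 : (2 ^ 3 : K) * y = 2 ^ 3 * y' := by rw [hx] at e2; linear_combination e2' - e2
    exact mul_left_cancel₀ (pow_ne_zero 3 h2) h3
  subst hx hy
  rfl

theorem At.neg (hV : IsK V n) {P : V.Point} {X Y : K} (h : At n P X Y) : At n (-P) X (-Y) := by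
  obtain ⟨x, y, hn, rfl, rfl, rfl⟩ := h
  rw [Affine.Point.neg_some]
  refine ⟨_, _, _, rfl, rfl, ?_⟩
  rw [WeierstrassCurve.Affine.negY, hV.a3]
  ring

/-- the points of order two -/
theorem exists_two (hV : IsK V n) (h2 : (2 : K) ≠ 0) {e : K}
    (he : e * (e ^ 2 - 66 * n * e + n ^ 2) = 0)
    (hd : 3 * e ^ 2 - 132 * n * e + n ^ 2 ≠ 0) : ∃ P : V.Point, At n P e 0 := by
  have h4 : (4 : K) ≠ 0 := by
    have : (4 : K) = 2 ^ 2 := by norm_num
    rw [this]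
    exact pow_ne_zero _ h2
  obtain ⟨x, hx⟩ : ∃ x : K, e = 4 * x + n := ⟨(e - n) / 4, by field_simp; ring⟩
  obtain ⟨y, hy⟩ : ∃ y : K, 2 * y + V.a₁ * x = 0 := ⟨-(V.a₁ * x) / 2, by field_simp; ring⟩
  have hq : V.Equation x y := by
    apply hV.eqn' h2
    rw [← hx, hy]
    linear_combination -he
  have hn : V.Nonsingular x y := by
    rw [Affine.nonsingular_iff]
    refine ⟨hq, Or.inl ?_⟩
    intro hcon
    have hf := hV.fx x y
    rw [hcon, sub_self, mul_zero, ← hx, hy] at hf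
    apply hd
    linear_combination hf
  exact ⟨Affine.Point.some x y hn, x, y, hn, rfl, hx, by rw [hy, mul_zero]⟩

theorem At.add (hV : IsK V n) (h2 : (2 : K) ≠ 0) {P P' : V.Point} {X Y X' Y' : K}
    (h : At n P X Y) (h' : At n P' X' Y') (hne : X ≠ X') :
    ∃ Y3, At n (P + P') (((Y - Y') / (X - X')) ^ 2 + 66 * n - X - X') Y3 := by
  obtain ⟨x, y, hn, rfl, rfl, rfl⟩ := h
  obtain ⟨x', y', hn', rfl, rfl, rfl⟩ := h'
  have hx : x ≠ x' := fun h => hne (by rw [h])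
  rw [Affine.Point.add_of_X_ne hx]
  refine ⟨_, _, _, _, rfl, ?_, rfl⟩
  rw [WeierstrassCurve.Affine.addX, WeierstrassCurve.Affine.slope_of_X_ne hx]
  have h1 : x - x' ≠ 0 := sub_ne_zero.2 hx
  have h4 : (4 : K) ≠ 0 := by
    have : (4 : K) = 2 ^ 2 := by norm_num
    rw [this]
    exact pow_ne_zero _ h2
  have h5 : (4 * (2 * y + V.a₁ * x) - 4 * (2 * y' + V.a₁ * x')) /
      (4 * x + n - (4 * x' + n)) = 2 * ((y - y') / (x - x')) + V.a₁ := by
    have h6 : 4 * x + n - (4 * x' + n) = 4 * (x - x') := by ring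
    rw [h6]
    field_simp
    ring
  rw [h5]
  linear_combination hV.b2

/-- translation by a point of order two with the coordinates `(e, 0)` -/
theorem At.addT (hV : IsK V n) (h2 : (2 : K) ≠ 0) {P T : V.Point} {X Y e : K} (h : At n P X Y)
    (hT : At n T e 0) (hX : X ≠ e) : ∃ X3 Y3, At n (P + T) X3 Y3 ∧
      (X3 - e) * (X - e) = 3 * e ^ 2 - 132 * n * e + n ^ 2 := by
  obtain ⟨Y3, h3⟩ := h.add hV h2 hT hX
  refine ⟨_, Y3, h3, ?_⟩
  have e0 := h.eqn hV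
  have eT := hT.eqn hV
  have hXe : X - e ≠ 0 := sub_ne_zero.2 hX
  rw [sub_zero]
  obtain ⟨L, hL⟩ : ∃ L : K, L = Y / (X - e) := ⟨_, rfl⟩
  have hL1 : L * (X - e) = Y := by rw [hL, div_mul_cancel₀ _ hXe]
  rw [← hL]
  have e3 : L ^ 2 * (X - e) = X ^ 2 + (-66 * n + e) * X + (e ^ 2 - 66 * n * e + n ^ 2) := by
    apply mul_right_cancel₀ hXe
    rw [← hL1] at e0
    linear_combination e0 - eT
  linear_combination e3

theorem two_tors (hV : IsK V n) (h2 : (2 : K) ≠ 0) {T : V.Point} {e : K} (hT : At n T e 0) :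
    T + T = 0 := by
  have h1 : At n (-T) e 0 := by simpa using hT.neg hV
  have h3 : T = -T := hT.ext h2 h1
  calc T + T = T + -T := by rw [← h3]
    _ = 0 := add_neg_cancel T

end crd

section

variable {q : ℕ} [Fact q.Prime] {W : WeierstrassCurve ℤ} {N : ℤ}

theorem isK (h : IsJ 2 W N) : IsK ((W.map (Int.castRingHom ℚ_[q])).toAffine) (N : ℚ_[q]) := by
  have h2 : W.a₁ ^ 2 + 4 * W.a₂ = -63 * N := h.b2
  have h4 : W.a₄ = -8 * N ^ 2 := h.a4
  have h6 : W.a₆ = -N ^ 3 := by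
    have h6' : W.a₆ = (-1) * N ^ 3 := h.a6
    linarith
  refine ⟨?_, ?_, ?_, ?_⟩
  · show ((W.a₃ : ℤ) : ℚ_[q]) = 0
    rw [h.a3, Int.cast_zero]
  · show ((W.a₆ : ℤ) : ℚ_[q]) = -(N : ℚ_[q]) ^ 3
    exact_mod_cast h6
  · show ((W.a₁ : ℤ) : ℚ_[q]) ^ 2 + 4 * ((W.a₂ : ℤ) : ℚ_[q]) = -63 * (N : ℚ_[q])
    exact_mod_cast h2
  · show ((W.a₄ : ℤ) : ℚ_[q]) = -8 * (N : ℚ_[q]) ^ 2
    exact_mod_cast h4

/-- singular reduction in the coordinates `X`, `Y` -/
theorem sing_XY (h : IsJ 2 W N) (hq2 : q ≠ 2) (x y : ℚ_[q]) :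
    SingRed W q x y ↔ ‖4 * x + (N : ℚ_[q])‖ ≤ 1 ∧ ‖4 * (2 * y + (W.a₁ : ℚ_[q]) * x)‖ < 1 ∧
      ‖3 * (4 * x + (N : ℚ_[q])) ^ 2 - 132 * (N : ℚ_[q]) * (4 * x + (N : ℚ_[q])) +
        (N : ℚ_[q]) ^ 2‖ < 1 := by
  have hV := isK (q := q) h
  have e2 := hV.fx x y
  have n4 := norm4 hq2
  have n2' := norm2 hq2
  have n16 := norm16 hq2
  have hN := nint (q := q) N
  have c3 : ((W.a₃ : ℤ) : ℚ_[q]) = 0 := by rw [h.a3, Int.cast_zero]
  have e3 : 16 * ((W.a₁ : ℚ_[q]) * y - (3 * x ^ 2 + 2 * (W.a₂ : ℚ_[q]) * x + (W.a₄ : ℚ_[q]))) =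
      2 * (W.a₁ : ℚ_[q]) * (4 * (2 * y + (W.a₁ : ℚ_[q]) * x)) -
      (3 * (4 * x + (N : ℚ_[q])) ^ 2 - 132 * (N : ℚ_[q]) * (4 * x + (N : ℚ_[q])) +
        (N : ℚ_[q]) ^ 2) := e2
  have hA := nint (q := q) W.a₁
  constructor
  · rintro ⟨hx, hy, hfx, hfy⟩
    rw [c3, add_zero] at hfy
    have hY : ‖4 * (2 * y + (W.a₁ : ℚ_[q]) * x)‖ < 1 := by rw [norm_mul, n4, one_mul]; exact hfy
    refine ⟨nadd (nmul n4.le hx) hN, hY, ?_⟩
    have h1 := lmul (a := (16 : ℚ_[q])) n16.le hfx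
    rw [e3] at h1
    have h2 := lsub (lmul (a := 2 * (W.a₁ : ℚ_[q])) (nmul n2'.le hA) hY) h1
    rw [sub_sub_cancel] at h2
    exact h2
  · rintro ⟨hX, hY, hF⟩
    have hx : ‖x‖ ≤ 1 := by
      have h1 : ‖4 * x‖ = ‖x‖ := by rw [norm_mul, n4, one_mul]
      rw [← h1]
      have : 4 * x = (4 * x + (N : ℚ_[q])) - N := by ring
      rw [this]
      exact nsub hX hN
    have hY' := hY
    rw [norm_mul, n4, one_mul] at hY'
    have hy : ‖y‖ ≤ 1 := by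
      have h1 : ‖2 * y‖ = ‖y‖ := by rw [norm_mul, n2', one_mul]
      rw [← h1]
      have : 2 * y = (2 * y + (W.a₁ : ℚ_[q]) * x) - (W.a₁ : ℚ_[q]) * x := by ring
      rw [this]
      exact nsub hY'.le (nmul hA hx)
    refine ⟨hx, hy, ?_, ?_⟩
    · have h1 : ‖16 * ((W.a₁ : ℚ_[q]) * y - (3 * x ^ 2 + 2 * (W.a₂ : ℚ_[q]) * x + (W.a₄ : ℚ_[q])))‖ < 1 := by
        rw [e3]
        exact lsub (lmul (nmul n2'.le hA) hY) hF
      rw [norm_mul, n16, one_mul] at h1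
      exact h1
    · rw [c3, add_zero]
      exact hY'

/-- membership in `E⁰` -/
theorem mem_E0 (h : IsJ 2 W N) (hq2 : q ≠ 2) {P : PtP W q} {X Y : ℚ_[q]}
    (hP : At (N : ℚ_[q]) P X Y) : P ∉ E0 W q ↔ ‖X‖ ≤ 1 ∧ ‖Y‖ < 1 ∧
      ‖3 * X ^ 2 - 132 * (N : ℚ_[q]) * X + (N : ℚ_[q]) ^ 2‖ < 1 := by
  obtain ⟨x, y, hn, rfl, rfl, rfl⟩ := hP
  have h0 := sing_XY (q := q) h hq2 x y
  have h1 : (Affine.Point.some x y hn : PtP W q) ∉ E0 W q ↔ SingRed W q x y := by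
    rw [t_E0]
    constructor
    · intro h1
      push Not at h1
      obtain ⟨x', y', h', e, hs⟩ := h1
      injection e with e1 e2
      rw [e1, e2]
      exact hs
    · intro hs h1
      exact h1 x y hn rfl hs
  rw [h1, h0]
  rfl

variable (h : IsJ 2 W N) (hq2 : q ≠ 2) (hM : ‖(N : ℚ_[q])‖ = (q : ℝ)⁻¹)

include h hq2 hM

/-- the points outside `E⁰` are those with `|X| < 1` -/
theorem memX {P : PtP W q} {X Y : ℚ_[q]} (hP : At (N : ℚ_[q]) P X Y) : P ∉ E0 W q ↔ ‖X‖ < 1 := by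
  have he := hP.eqn (isK (q := q) h)
  have hm := M_lt hM
  have i66 : ‖(66 : ℚ_[q])‖ ≤ 1 := by exact_mod_cast nint (q := q) 66
  have i132 : ‖(132 : ℚ_[q])‖ ≤ 1 := by exact_mod_cast nint (q := q) 132
  have i3 : ‖(3 : ℚ_[q])‖ ≤ 1 := by exact_mod_cast nint (q := q) 3
  rw [mem_E0 h hq2 hP]
  constructor
  · rintro ⟨hX, hY, -⟩
    have h3 : ‖X ^ 3‖ < 1 := by
      have e : X ^ 3 = Y * Y + (66 * X ^ 2 - N * X) * N := by
        linear_combination -he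
      rw [e]
      exact ladd (lmul hY.le hY) (lmul (nsub (nmul i66 (npow hX 2)) (nmul hm.le hX)) hm)
    rw [norm_pow] at h3
    by_contra h
    rw [not_lt] at h
    have := one_le_pow₀ h (n := 3)
    linarith
  · intro hX
    refine ⟨hX.le, ?_, ?_⟩
    · have h1 : ‖Y ^ 2‖ < 1 := by
        rw [he]
        exact lmul' hX (nadd (nsub (npow hX.le 2) (nmul (nmul i66 hm.le) hX.le)) (npow hm.le 2))
      rw [norm_pow] at h1
      by_contra h
      rw [not_lt] at h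
      have := one_le_pow₀ h (n := 2)
      linarith
    · have hm2 : ‖(N : ℚ_[q]) ^ 2‖ < 1 := by
        rw [pow_two]
        exact lmul hm.le hm
      have hX2 : ‖X ^ 2‖ < 1 := by
        rw [pow_two]
        exact lmul hX.le hX
      exact ladd (lsub (lmul i3 hX2) (lmul (nmul i132 hm.le) hX)) hm2

/-- translation by a point of order two -/
theorem trans {r t c Y : ℚ_[q]} {P T : PtP W q} (hc : 3 * r ^ 2 - 132 * r + 1 = c)
    (hc1 : ‖c‖ = 1) (hr1 : ‖r‖ ≤ 1)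
    (hP : At (N : ℚ_[q]) P (N * t) Y) (hT : At (N : ℚ_[q]) T (N * r) 0) (htr : ‖t - r‖ < 1)
    (hroot : r * (r ^ 2 - 66 * r + 1) = 0) : P + T ∈ E0 W q := by
  have hV := isK (q := q) h
  have hm0 := M_ne hM
  have hml := M_lt hM
  have hmp := M_pos hM
  have h2 : (2 : ℚ_[q]) ≠ 0 := two_ne_zero
  by_cases he : t = r
  · have hY : Y = 0 := by
      have h3 := hP.eqn hV
      rw [he] at h3
      have h4 : Y ^ 2 = 0 := by
        rw [h3]
        linear_combination (N : ℚ_[q]) ^ 3 * hroot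
      exact pow_eq_zero_iff two_ne_zero |>.1 h4
    rw [hY, he] at hP
    rw [hP.ext h2 hT, two_tors hV h2 hT]
    exact AddSubgroup.zero_mem _
  · obtain ⟨X3, Y3, h3, h4⟩ := hP.addT hV h2 hT (fun hh => he (mul_left_cancel₀ hm0 hh))
    have htr0 : t - r ≠ 0 := sub_ne_zero.2 he
    have e5 : (X3 - N * r) * (t - r) = N * c := by
      apply mul_left_cancel₀ hm0
      linear_combination h4 + (N : ℚ_[q]) ^ 2 * hc
    have e6 : ‖X3 - N * r‖ * ‖t - r‖ = (q : ℝ)⁻¹ := by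
      rw [← norm_mul, e5, norm_mul, hM, hc1, mul_one]
    have htr' := norm_le_inv q htr
    by_contra hcon
    have h5 := (memX h hq2 hM h3).1 hcon
    have h6 : ‖X3 - N * r‖ < 1 := lsub h5 (lmul' hml hr1)
    have h8 : 0 < ‖t - r‖ := norm_pos_iff.2 htr0
    have h9 : ‖X3 - N * r‖ * ‖t - r‖ < 1 * ‖t - r‖ := mul_lt_mul_of_pos_right h6 h8
    rw [e6, one_mul] at h9
    exact absurd htr' (not_le.2 h9)

/-- the points outside of `E⁰` -/
theorem out {P : PtP W q} (hP : P ∉ E0 W q) : ∃ t Y : ℚ_[q], At (N : ℚ_[q]) P (N * t) Y ∧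
    ‖t‖ ≤ 1 ∧ (‖t‖ < 1 ∨ ‖t ^ 2 - 66 * t + 1‖ < 1) := by
  have hV := isK (q := q) h
  have hm := M_lt hM
  have hm0 := M_ne hM
  have hmp := M_pos hM
  have i66 : ‖(66 : ℚ_[q])‖ ≤ 1 := by exact_mod_cast nint (q := q) 66
  have hP0 : P ≠ 0 := fun h0 => hP (by rw [h0]; exact zero_mem _)
  obtain ⟨X, Y, hat⟩ := exists_at (n := (N : ℚ_[q])) hP0
  have hX := (memX h hq2 hM hat).1 hP
  obtain ⟨t, rfl⟩ : ∃ t : ℚ_[q], X = N * t := ⟨X / N, by rw [mul_div_cancel₀ _ hm0]⟩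
  have ht1 : ‖t‖ ≤ 1 := by
    have h1 := norm_le_inv q hX
    rw [norm_mul, ← hM] at h1
    by_contra h
    rw [not_le] at h
    nlinarith
  have he : ‖Y‖ ^ 2 = (q : ℝ)⁻¹ ^ 3 * ‖t * (t ^ 2 - 66 * t + 1)‖ := by
    have h3 := hat.eqn hV
    have h4 : (N : ℚ_[q]) * t * ((N * t) ^ 2 - 66 * N * (N * t) + N ^ 2) =
        N ^ 3 * (t * (t ^ 2 - 66 * t + 1)) := by ring
    rw [h4] at h3
    rw [← norm_pow, h3, norm_mul, norm_pow, hM]
  have h3 : ‖t ^ 2 - 66 * t + 1‖ ≤ 1 := nadd (nsub (npow ht1 2) (nmul i66 ht1)) norm_one.le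
  refine ⟨t, Y, hat, ht1, ?_⟩
  by_contra hcon
  push Not at hcon
  have h4 : ‖t * (t ^ 2 - 66 * t + 1)‖ = 1 := by
    rw [norm_mul, le_antisymm ht1 hcon.1, le_antisymm h3 hcon.2, one_mul]
  rw [h4, mul_one] at he
  exact parity' Y 1 he

end

section final

variable {q : ℕ} [Fact q.Prime]

/-- numbers close to one are squares -/
theorem hens {e : ℚ_[q]} (h : ‖e‖ < ‖(4 : ℚ_[q])‖) : IsSquare (1 + e) := by
  have n4 : ‖(4 : ℚ_[q])‖ ≤ 1 := by exact_mod_cast nint (q := q) 4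
  have he1 : ‖e‖ ≤ 1 := h.le.trans n4
  let ε : ℤ_[q] := ⟨e, he1⟩
  let F : Polynomial ℤ_[q] := Polynomial.X ^ 2 - Polynomial.C (1 + ε)
  have h1 : ‖F.aeval (1 : ℤ_[q])‖ < ‖F.derivative.aeval (1 : ℤ_[q])‖ ^ 2 := by
    have e1 : F.aeval (1 : ℤ_[q]) = -ε := by
      simp [F]
    have e2 : F.derivative.aeval (1 : ℤ_[q]) = 2 := by
      simp [F]
      norm_num
    rw [e1, e2, norm_neg]
    have e3 : ‖(2 : ℤ_[q])‖ = ‖(2 : ℚ_[q])‖ := by
      rw [PadicInt.norm_def]; rfl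
    have n4' : ‖(4 : ℚ_[q])‖ = ‖(2 : ℚ_[q])‖ ^ 2 := by
      rw [← norm_pow]; norm_num
    rw [e3, ← n4']
    exact h
  obtain ⟨z, hz, -⟩ := hensels_lemma h1
  refine ⟨z, ?_⟩
  have h2 : z ^ 2 - (1 + ε) = 0 := by
    have : F.aeval z = z ^ 2 - (1 + ε) := by simp [F]
    rw [← this]; exact hz
  have h3 := congrArg (fun x : ℤ_[q] => (x : ℚ_[q])) h2
  simp only [PadicInt.coe_sub, PadicInt.coe_pow, PadicInt.coe_add, PadicInt.coe_one,
    PadicInt.coe_zero] at h3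
  have h4 : ((ε : ℤ_[q]) : ℚ_[q]) = e := rfl
  rw [h4] at h3
  linear_combination -h3

theorem n17 (hq17 : q ≠ 17) : ‖(17 : ℚ_[q])‖ = 1 := by
  have : ‖((17 : ℕ) : ℚ_[q])‖ = 1 :=
    norm_nat_eq_one q ((Nat.coprime_primes Fact.out (by norm_num)).2 hq17)
  exact_mod_cast this

theorem z17 (hq17 : q ≠ 17) : ((17 : ℤ) : ZMod q) ≠ 0 := by
  rw [Ne, ZMod.intCast_zmod_eq_zero_iff_dvd]
  intro h
  have h1 : q ∣ 17 := by exact_mod_cast h
  exact hq17 ((Nat.prime_dvd_prime_iff_eq Fact.out (by norm_num)).1 h1)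

theorem exists_s (hq2 : q ≠ 2) (hq17 : q ≠ 17) (hj : jacobiSym 17 q = 1) :
    ∃ s : ℚ_[q], s ^ 2 = 17 := by
  rw [← jacobiSym.legendreSym.to_jacobiSym, legendreSym.eq_one_iff q (z17 hq17)] at hj
  obtain ⟨a, ha⟩ := hj
  obtain ⟨b, rfl⟩ := ZMod.intCast_surjective a
  have hd : (q : ℤ) ∣ 17 - b * b := by
    rw [← ZMod.intCast_zmod_eq_zero_iff_dvd]
    push_cast
    rw [← ha]
    push_cast
    ring
  have hn : ‖(17 : ℚ_[q]) - b * b‖ < 1 := by
    have := Padic.norm_intCast_lt_one_iff.2 hd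
    push_cast at this
    exact this
  have hb : ‖(b : ℚ_[q])‖ = 1 := by
    refine le_antisymm (nint b) ?_
    by_contra hcon
    rw [not_le] at hcon
    have h1 : ‖(17 : ℚ_[q])‖ < 1 := by
      have : (17 : ℚ_[q]) = (17 - b * b) + b * b := by ring
      rw [this]
      exact ladd hn (lmul hcon.le hcon)
    rw [n17 hq17] at h1
    exact lt_irrefl _ h1
  have hb0 : (b : ℚ_[q]) ≠ 0 := by
    intro h
    rw [h, norm_zero] at hb
    exact zero_ne_one hb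
  obtain ⟨w, hw⟩ := hens (q := q) (e := (17 - b * b) / (b * b)) (by
    rw [norm_div, norm_mul, hb, mul_one, div_one, norm4 hq2]
    exact hn)
  refine ⟨w * b, ?_⟩
  have h2 : 1 + (17 - (b : ℚ_[q]) * b) / (b * b) = 17 / (b * b) := by
    field_simp
    ring
  rw [h2] at hw
  rw [mul_pow, sq w, ← hw]
  field_simp

theorem no_root (hq2 : q ≠ 2) (hq17 : q ≠ 17) (hj : ¬ jacobiSym 17 q = 1) {t : ℚ_[q]}
    (ht : ‖t‖ ≤ 1) : ¬ ‖t ^ 2 - 66 * t + 1‖ < 1 := by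
  intro hcon
  apply hj
  rw [← jacobiSym.legendreSym.to_jacobiSym, legendreSym.eq_one_iff q (z17 hq17)]
  -- residues
  let z : ℤ_[q] := ⟨t, ht⟩
  have h1 : PadicInt.toZMod (z ^ 2 - 66 * z + 1) = 0 := by
    rw [← RingHom.mem_ker, PadicInt.ker_toZMod, PadicInt.maximalIdeal_eq_span_p,
      Ideal.mem_span_singleton, ← PadicInt.norm_lt_one_iff_dvd, PadicInt.norm_def]
    push_cast
    exact hcon
  obtain ⟨u, hu⟩ : ∃ u, u = PadicInt.toZMod z := ⟨_, rfl⟩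
  rw [map_add, map_sub, map_pow, map_mul, map_one, ← hu] at h1
  have h66 : PadicInt.toZMod (66 : ℤ_[q]) = 66 := by
    exact_mod_cast map_natCast (PadicInt.toZMod (p := q)) 66
  rw [h66] at h1
  have h8 : (8 : ZMod q) ≠ 0 := by
    intro h8
    have h9 : ((8 : ℕ) : ZMod q) = 0 := by exact_mod_cast h8
    rw [ZMod.natCast_eq_zero_iff] at h9
    have h10 : q ∣ 2 ^ 3 := by norm_num; exact h9
    have h11 := (Nat.Prime.dvd_of_dvd_pow Fact.out h10)
    exact hq2 ((Nat.prime_dvd_prime_iff_eq Fact.out Nat.prime_two).1 h11)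
  refine ⟨(u - 33) / 8, ?_⟩
  push_cast
  field_simp
  linear_combination -h1

variable {W : WeierstrassCurve ℤ} {N : ℤ}

variable (h : IsJ 2 W N) (hq2 : q ≠ 2) (hq17 : q ≠ 17) (hM : ‖(N : ℚ_[q])‖ = (q : ℝ)⁻¹)

include h hq2 hq17 hM

theorem tam_two (hj : ¬ jacobiSym 17 q = 1) : tam W q = 2 := by
  have hV := isK (q := q) h
  have hm := M_lt hM
  have hm0 := M_ne hM
  have h2 : (2 : ℚ_[q]) ≠ 0 := two_ne_zero
  have i0 : ‖(0 : ℚ_[q])‖ ≤ 1 := by rw [norm_zero]; norm_num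
  obtain ⟨T0, hT0⟩ := exists_two hV h2 (e := N * 0) (by ring) (by
    have : 3 * ((N : ℚ_[q]) * 0) ^ 2 - 132 * N * (N * 0) + (N : ℚ_[q]) ^ 2 = (N : ℚ_[q]) ^ 2 := by
      ring
    rw [this]
    exact pow_ne_zero _ hm0)
  have a0 := two_tors hV h2 hT0
  have b0 : T0 ∉ E0 W q := (memX h hq2 hM hT0).2 (lmul' hm i0)
  rw [Pool.Agent.Y700.tam]
  apply index_of (E0 W q) ![0, T0]
  · intro i
    fin_cases i
    · exact add_zero _
    · exact a0
  · intro P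
    by_cases hP : P ∈ E0 W q
    · exact ⟨0, by simpa using hP⟩
    obtain ⟨t, Y, hat, ht1, ht⟩ := out h hq2 hM hP
    have ht0 : ‖t‖ < 1 := ht.resolve_right (no_root hq2 hq17 hj ht1)
    exact ⟨1, trans h hq2 hM (c := 1) (by norm_num) norm_one i0 hat hT0
      (by rw [sub_zero]; exact ht0) (by ring)⟩
  · intro i j hij
    fin_cases i <;> fin_cases j <;> first | rfl | (exfalso; simp at hij; exact b0 hij)

theorem tam_four (hj : jacobiSym 17 q = 1) : tam W q = 4 := by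
  have hV := isK (q := q) h
  have hm := M_lt hM
  have hm0 := M_ne hM
  have h2 : (2 : ℚ_[q]) ≠ 0 := two_ne_zero
  have i0 : ‖(0 : ℚ_[q])‖ ≤ 1 := by rw [norm_zero]; norm_num
  have i33 : ‖(33 : ℚ_[q])‖ ≤ 1 := by exact_mod_cast nint (q := q) 33
  have i8 : ‖(8 : ℚ_[q])‖ ≤ 1 := by exact_mod_cast nint (q := q) 8
  have m17 := n17 hq17
  obtain ⟨s, hs⟩ := exists_s hq2 hq17 hj
  have hs1 : ‖s‖ = 1 := by
    have h3 : ‖s‖ ^ 2 = 1 := by rw [← norm_pow, hs, m17]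
    exact (pow_eq_one_iff_of_nonneg (norm_nonneg _) two_ne_zero).1 h3
  have hs0 : s ≠ 0 := by
    intro h
    rw [h, norm_zero] at hs1
    exact zero_ne_one hs1
  have n2' := norm2 (q := q) hq2
  have n8 : ‖(8 : ℚ_[q])‖ = 1 := by
    have : (8 : ℚ_[q]) = 2 ^ 3 := by norm_num
    rw [this, norm_pow, n2', one_pow]
  have n16 := norm16 (q := q) hq2
  -- the two other roots
  obtain ⟨r, hr⟩ : ∃ r : ℚ_[q], r = 33 + 8 * s := ⟨_, rfl⟩
  obtain ⟨r', hr'⟩ : ∃ r' : ℚ_[q], r' = 33 - 8 * s := ⟨_, rfl⟩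
  have hsum : r + r' = 66 := by rw [hr, hr']; ring
  have hprod : r * r' = 1 := by rw [hr, hr']; linear_combination (-64) * hs
  have hdiff : r - r' = 16 * s := by rw [hr, hr']; ring
  have q1 : r ^ 2 - 66 * r + 1 = 0 := by rw [← hsum]; linear_combination -hprod
  have q2 : r' ^ 2 - 66 * r' + 1 = 0 := by rw [← hsum]; linear_combination -hprod
  have r1 : ‖r‖ ≤ 1 := by rw [hr]; exact nadd i33 (nmul i8 hs1.le)
  have r2 : ‖r'‖ ≤ 1 := by rw [hr']; exact nsub i33 (nmul i8 hs1.le)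
  have rn : ‖r‖ = 1 ∧ ‖r'‖ = 1 := by
    have h3 : ‖r‖ * ‖r'‖ = 1 := by rw [← norm_mul, hprod, norm_one]
    constructor
    · nlinarith [norm_nonneg r, norm_nonneg r']
    · nlinarith [norm_nonneg r, norm_nonneg r']
  have nd : ‖r - r'‖ = 1 := by rw [hdiff, norm_mul, n16, hs1, one_mul]
  have c1 : 3 * r ^ 2 - 132 * r + 1 = r * (r - r') := by
    rw [← hprod]
    have e66 : (132 : ℚ_[q]) = 2 * (r + r') := by rw [hsum]; norm_num
    rw [e66]
    ring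
  have c2 : 3 * r' ^ 2 - 132 * r' + 1 = r' * (r' - r) := by
    rw [← hprod]
    have e66 : (132 : ℚ_[q]) = 2 * (r + r') := by rw [hsum]; norm_num
    rw [e66]
    ring
  have nc1 : ‖r * (r - r')‖ = 1 := by rw [norm_mul, rn.1, nd, one_mul]
  have nc2 : ‖r' * (r' - r)‖ = 1 := by
    rw [norm_mul, rn.2, one_mul, ← norm_neg, neg_sub, nd]
  have ne1 : r * (r - r') ≠ 0 := by
    intro h3
    rw [h3, norm_zero] at nc1
    exact zero_ne_one nc1
  have ne2 : r' * (r' - r) ≠ 0 := by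
    intro h3
    rw [h3, norm_zero] at nc2
    exact zero_ne_one nc2
  have hr0 : r ≠ 0 := fun h3 => ne1 (by rw [h3, zero_mul])
  have hr0' : r' ≠ 0 := fun h3 => ne2 (by rw [h3, zero_mul])
  have hrr : r ≠ r' := fun h3 => ne1 (by rw [h3, sub_self, mul_zero])
  obtain ⟨T0, hT0⟩ := exists_two hV h2 (e := N * 0) (by ring) (by
    have : 3 * ((N : ℚ_[q]) * 0) ^ 2 - 132 * N * (N * 0) + (N : ℚ_[q]) ^ 2 = (N : ℚ_[q]) ^ 2 := by
      ring
    rw [this]
    exact pow_ne_zero _ hm0)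
  obtain ⟨T1, hT1⟩ := exists_two hV h2 (e := N * r)
    (by linear_combination (N : ℚ_[q]) ^ 3 * r * q1) (by
    have : 3 * ((N : ℚ_[q]) * r) ^ 2 - 132 * N * (N * r) + (N : ℚ_[q]) ^ 2 =
        (N : ℚ_[q]) ^ 2 * (r * (r - r')) := by
      rw [← c1]
      ring
    rw [this]
    exact mul_ne_zero (pow_ne_zero _ hm0) ne1)
  obtain ⟨T2, hT2⟩ := exists_two hV h2 (e := N * r')
    (by linear_combination (N : ℚ_[q]) ^ 3 * r' * q2) (by
    have : 3 * ((N : ℚ_[q]) * r') ^ 2 - 132 * N * (N * r') + (N : ℚ_[q]) ^ 2 =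
        (N : ℚ_[q]) ^ 2 * (r' * (r' - r)) := by
      rw [← c2]
      ring
    rw [this]
    exact mul_ne_zero (pow_ne_zero _ hm0) ne2)
  have a0 := two_tors hV h2 hT0
  have a1 := two_tors hV h2 hT1
  have a2 := two_tors hV h2 hT2
  have b0 : T0 ∉ E0 W q := (memX h hq2 hM hT0).2 (lmul' hm i0)
  have b1 : T1 ∉ E0 W q := (memX h hq2 hM hT1).2 (lmul' hm r1)
  have b2 : T2 ∉ E0 W q := (memX h hq2 hM hT2).2 (lmul' hm r2)
  -- the sums
  have key : ∀ (e e' e'' : ℚ_[q]) (T T' T'' : PtP W q), At (N : ℚ_[q]) T (N * e) 0 →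
      At (N : ℚ_[q]) T' (N * e') 0 → T'' ∉ E0 W q → At (N : ℚ_[q]) T'' (N * e'') 0 → e ≠ e' →
      (e'' - e') * (e - e') = 3 * e' ^ 2 - 132 * e' + 1 → T + T' ∉ E0 W q := by
    intro e e' e'' T T' T'' k k' hn k'' hne hr
    obtain ⟨X3, Y3, h3, h4⟩ := k.addT hV h2 k' (fun hh => hne (mul_left_cancel₀ hm0 hh))
    have h5 : X3 = N * e'' := by
      have h6 : (X3 - N * e'') * (N * (e - e')) = 0 := by
        linear_combination h4 - (N : ℚ_[q]) ^ 2 * hr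
      have h7 : (N : ℚ_[q]) * (e - e') ≠ 0 := mul_ne_zero hm0 (sub_ne_zero.2 hne)
      exact sub_eq_zero.1 ((mul_eq_zero.1 h6).resolve_right h7)
    rw [memX h hq2 hM h3, h5]
    exact (memX h hq2 hM k'').1 hn
  have m01 : T0 + T1 ∉ E0 W q := key 0 r r' T0 T1 T2 hT0 hT1 b2 hT2 (Ne.symm hr0) (by
    rw [c1]
    ring)
  have m02 : T0 + T2 ∉ E0 W q := key 0 r' r T0 T2 T1 hT0 hT2 b1 hT1 (Ne.symm hr0') (by
    rw [c2]
    ring)
  have m12 : T1 + T2 ∉ E0 W q := key r r' 0 T1 T2 T0 hT1 hT2 b0 hT0 hrr (by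
    rw [c2]
    ring)
  have m10 : T1 + T0 ∉ E0 W q := by rwa [add_comm]
  have m20 : T2 + T0 ∉ E0 W q := by rwa [add_comm]
  have m21 : T2 + T1 ∉ E0 W q := by rwa [add_comm]
  rw [Pool.Agent.Y700.tam]
  apply index_of (E0 W q) ![0, T0, T1, T2]
  · intro i
    fin_cases i
    · exact add_zero _
    · exact a0
    · exact a1
    · exact a2
  · intro P
    by_cases hP : P ∈ E0 W q
    · exact ⟨0, by simpa using hP⟩
    obtain ⟨t, Y, hat, ht1, ht⟩ := out h hq2 hM hP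
    have hfac : t ^ 2 - 66 * t + 1 = (t - r) * (t - r') := by
      rw [← hsum, ← hprod]
      ring
    rw [hfac, norm_mul] at ht
    by_cases ht0 : ‖t‖ < 1
    · exact ⟨1, trans h hq2 hM (c := 1) (by norm_num) norm_one i0 hat hT0
        (by rw [sub_zero]; exact ht0) (by ring)⟩
    replace ht := ht.resolve_left ht0
    by_cases d1 : ‖t - r‖ < 1
    · exact ⟨2, trans h hq2 hM c1 nc1 r1 hat hT1 d1 (by rw [q1, mul_zero])⟩
    · have d2 : ‖t - r'‖ < 1 := by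
        by_contra d2
        have d1' := not_lt.1 d1
        have d2' := not_lt.1 d2
        have := one_le_mul_of_one_le_of_one_le d1' d2'
        linarith
      exact ⟨3, trans h hq2 hM c2 nc2 r2 hat hT2 d2 (by rw [q2, mul_zero])⟩
  · intro i j hij
    fin_cases i <;> fin_cases j <;> first | rfl | (exfalso; simp at hij; first | exact b0 hij | exact b1 hij | exact b2 hij | exact m01 hij | exact m02 hij | exact m12 hij | exact m10 hij | exact m20 hij | exact m21 hij)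

end final

theorem t_ITP2 : S_ITP2 := by
  intro W N p _ h hp2 hp17 h1 h2
  by_cases hj : jacobiSym 17 p = 1
  · rw [if_pos hj]
    exact tam_four h hp2 hp17 (norm_M p h1 h2) hj
  · rw [if_neg hj]
    exact tam_two h hp2 hp17 (norm_M p h1 h2) hj

end Pool.Agent.H800.I17.ITP2
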